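import Pool.Agent.Q193.LT.Add

/-!
# Independence of `ℓ` for alternating products of local factors
-/

set_option autoImplicit false

open CategoryTheory CategoryTheory.Limits AlgebraicGeometry Pool.Agent.Y116.UV Pool.Agent.Z125.UN
  Pool.Agent.Q193.LT PowerSeries

namespace Pool.Agent.Q148.LI

/-- The prime numbers different from `p`. -/
abbrev Aux (p : ℕ) : Type := {l : ℕ // l.Prime ∧ l ≠ p}

instance (p : ℕ) (l : Aux p) : Fact (l : ℕ).Prime := ⟨l.2.1⟩

/-- The group of the invertible power series over `ℚ_ℓ`. -/
def Ser {p : ℕ} (l : Aux p) : Type := (PowerSeries ℚ_[l])ˣ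

noncomputable instance {p : ℕ} (l : Aux p) : CommGroup (Ser l) :=
  inferInstanceAs (CommGroup (PowerSeries ℚ_[l])ˣ)

/-- The power series. -/
def Ser.val {p : ℕ} {l : Aux p} (x : Ser l) : PowerSeries ℚ_[l] := Units.val x

/-- The substitution `T ↦ p ^ a T`, as a homomorphism. -/
noncomputable def scaleHom {p : ℕ} (l : Aux p) (a : ℤ) :
    (PowerSeries ℚ_[l])ˣ →* (PowerSeries ℚ_[l])ˣ :=
  Units.map (rescale ((p : ℚ_[l]) ^ a)).toMonoidHom

/-- The substitution `T ↦ p ^ a T`. -/
noncomputable def scale {p : ℕ} {l : Aux p} (a : ℤ) (x : Ser l) : Ser l := scaleHom l a x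

/-- For all primes `ℓ ≠ p`, all integers `i` and all schemes `X` over `R` an invertible power series
over `ℚ_ℓ`. -/
structure FactorData (R : Type) [CommRing R] (p : ℕ) where
  /-- the power series -/
  P : (l : Aux p) → ℤ → Sch R → Ser l

variable {R : Type} [CommRing R]

/-- The standard properties: closed-open decompositions, affine bundles, products with `𝔾_m`. -/
structure IsFactor {p : ℕ} (D : FactorData R p) : Prop where
  iso : ∀ {X Y : Sch R}, FT True X → Nonempty (X ≅ Y) → ∀ l i, D.P l i X = D.P l i Y
  triple : ∀ {Z X U : Sch R} (a : Z ⟶ X) (b : U ⟶ X), FT True X → IsTriple a b →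
    ∀ l i, D.P l i X = D.P l i Z * D.P l i U
  bundle : ∀ (B : Type) [CommRing B] [Algebra R B] [Algebra.FiniteType R B] (r : ℕ)
    (f : Fin r → B) (U : Sch R) (j : U ⟶ aff R B), IsOpenImmersion j.left →
    Set.range j.left = {x : PrimeSpectrum B | ∃ k, f k ∉ x.asIdeal} →
    ∀ l i, D.P l i (aff R (Jou f)) = scale (r - 1) (D.P l (i - 2 * (r - 1)) U)
  torus : ∀ (B : Type) [CommRing B] [Algebra R B] [Algebra.FiniteType R B], ∀ l i,
    D.P l i (aff R (LaurentPolynomial B)) = scale 1 (D.P l (i - 2) (aff R B)) / D.P l i (aff R B)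
  neg : ∀ (B : Type) [CommRing B] [Algebra R B] [Algebra.FiniteType R B], ∀ l i, i < 0 →
    D.P l i (aff R B) = 1

/-- For all `i` the power series `P l i X` has rational coefficients and is the same one for all
`ℓ ≠ p`. -/
def Independent {p : ℕ} (D : FactorData R p) (X : Sch R) : Prop :=
  ∀ i : ℤ, ∃ f : PowerSeries ℚ, ∀ l : Aux p,
    (D.P l i X).val = PowerSeries.map (algebraMap ℚ ℚ_[l]) f

section

variable {p : ℕ} [hp : Fact p.Prime]

lemma p_ne (l : Aux p) : (p : ℚ_[l]) ≠ 0 := by
  exact_mod_cast hp.out.ne_zero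

omit hp in
lemma coeff_scale {l : Aux p} (a : ℤ) (x : Ser l) (n : ℕ) :
    coeff n (scale a x).val = ((p : ℚ_[l]) ^ a) ^ n * coeff n x.val := by
  have h : (scale a x).val = rescale ((p : ℚ_[l]) ^ a) x.val := rfl
  rw [h, coeff_rescale]

omit hp in
lemma Ser.ext {l : Aux p} {x y : Ser l} (h : ∀ n, coeff n x.val = coeff n y.val) : x = y :=
  Units.ext (PowerSeries.ext h)

lemma scale_add {l : Aux p} (a b : ℤ) (x : Ser l) :
    scale a (scale b x) = scale (a + b) x := by
  apply Ser.ext
  intro n
  rw [coeff_scale, coeff_scale, coeff_scale, zpow_add₀ (p_ne l)]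
  ring

omit hp in
lemma scale_zero {l : Aux p} (x : Ser l) : scale 0 x = x := by
  apply Ser.ext
  intro n
  rw [coeff_scale]
  simp

omit hp in
lemma scale_mul {l : Aux p} (a : ℤ) (x y : Ser l) : scale a (x * y) = scale a x * scale a y :=
  map_mul (scaleHom l a) x y

omit hp in
lemma scale_div {l : Aux p} (a : ℤ) (x y : Ser l) : scale a (x / y) = scale a x / scale a y :=
  map_div (scaleHom l a) x y

omit hp in
lemma scale_one {l : Aux p} (a : ℤ) : scale a (1 : Ser l) = 1 := map_one (scaleHom l a)

/-- The families of power series. -/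
abbrev Fam (p : ℕ) : Type := (l : Aux p) → Ser l

/-- rational and independent of `ℓ` -/
def Ind (x : Fam p) : Prop := ∃ f : PowerSeries ℚ, ∀ l : Aux p,
    (x l).val = PowerSeries.map (algebraMap ℚ ℚ_[l]) f

omit hp in
lemma Ind.one : Ind (1 : Fam p) := ⟨1, fun l => by
  rw [map_one]
  rfl⟩

omit hp in
lemma Ind.mul {x y : Fam p} (hx : Ind x) (hy : Ind y) : Ind (x * y) := by
  obtain ⟨f, hf⟩ := hx
  obtain ⟨g, hg⟩ := hy
  refine ⟨f * g, fun l => ?_⟩
  rw [map_mul, ← hf, ← hg]
  rfl

omit hp in
lemma exists_aux (p : ℕ) : Nonempty (Aux p) := by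
  obtain ⟨l, h1, h2⟩ := Nat.exists_infinite_primes (p + 1)
  exact ⟨⟨l, h2, by omega⟩⟩

omit hp in
lemma Ind.inv {x : Fam p} (hx : Ind x) : Ind x⁻¹ := by
  obtain ⟨f, hf⟩ := hx
  obtain ⟨l0⟩ := exists_aux p
  have h1 : constantCoeff f ≠ 0 := by
    intro h
    have h2 : IsUnit (PowerSeries.map (algebraMap ℚ ℚ_[l0]) f) := by
      rw [← hf l0]
      exact Units.isUnit (x l0 : (PowerSeries ℚ_[l0])ˣ)
    have h3 := (PowerSeries.isUnit_iff_constantCoeff).mp h2
    rw [← PowerSeries.coeff_zero_eq_constantCoeff_apply, PowerSeries.coeff_map,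
      PowerSeries.coeff_zero_eq_constantCoeff_apply, h, map_zero] at h3
    exact not_isUnit_zero h3
  have h2 : f * f⁻¹ = 1 := PowerSeries.mul_inv_cancel f h1
  refine ⟨f⁻¹, fun l => ?_⟩
  have h3 : (x l).val * PowerSeries.map (algebraMap ℚ ℚ_[l]) f⁻¹ = 1 := by
    rw [hf l, ← map_mul, h2, map_one]
  have h4 : ((x⁻¹) l).val * (x l).val = 1 := Units.inv_mul (x l : (PowerSeries ℚ_[l])ˣ)
  calc ((x⁻¹) l).val = ((x⁻¹) l).val * ((x l).val *
        PowerSeries.map (algebraMap ℚ ℚ_[l]) f⁻¹) := by rw [h3, mul_one]
    _ = PowerSeries.map (algebraMap ℚ ℚ_[l]) f⁻¹ := by rw [← mul_assoc, h4, one_mul]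

omit hp in
lemma Ind.scale {x : Fam p} (a : ℤ) (hx : Ind x) : Ind (fun l => LI.scale a (x l)) := by
  obtain ⟨f, hf⟩ := hx
  refine ⟨rescale ((p : ℚ) ^ a) f, fun l => ?_⟩
  ext n
  rw [coeff_scale, hf l, coeff_map, coeff_map, coeff_rescale]
  simp [map_mul, map_pow, map_zpow₀]

lemma Ind.scale_iff {x : Fam p} (a : ℤ) : Ind (fun l => LI.scale a (x l)) ↔ Ind x := by
  refine ⟨fun h => ?_, Ind.scale a⟩
  have h2 := h.scale (-a)
  have h3 : (fun l => LI.scale (-a) (LI.scale a (x l))) = x := by
    funext l
    rw [scale_add, neg_add_cancel, scale_zero]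
  rwa [h3] at h2

/-- the subgroup of the pairs -/
def indGroup (p : ℕ) : AddSubgroup (Additive (Fam p) × Additive (Fam p)) where
  carrier := {x | Ind x.1.toMul ∧ Ind x.2.toMul}
  zero_mem' := ⟨Ind.one, Ind.one⟩
  add_mem' := fun ha hb => ⟨ha.1.mul hb.1, ha.2.mul hb.2⟩
  neg_mem' := fun ha => ⟨ha.1.inv, ha.2.inv⟩

/-- the family of weight `i`, rescaled by `p ^ (-m)` -/
noncomputable def fam (D : FactorData R p) (m i : ℤ) (X : Sch R) : Fam p :=
  fun l => scale (-m) (D.P l i X)

/-- the additive invariants -/
noncomputable def addD (D : FactorData R p) : AddData R (Additive (Fam p) × Additive (Fam p)) where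
  fin := fun _ _ => True
  e := fun m X => (Additive.ofMul (fam D m (2 * m) X), Additive.ofMul (fam D m (2 * m + 1) X))

lemma independent_iff (D : FactorData R p) (X : Sch R) :
    Independent D X ↔ InAll (addD D) (indGroup p) X := by
  constructor
  · intro h m
    exact ⟨trivial, (Ind.scale_iff (-m)).mpr (h (2 * m)), (Ind.scale_iff (-m)).mpr (h (2 * m + 1))⟩
  · intro h i
    obtain ⟨m, hm | hm⟩ := Int.even_or_odd' i
    · rw [hm]
      exact (Ind.scale_iff (-m)).mp (h m).2.1
    · rw [hm]
      exact (Ind.scale_iff (-m)).mp (h m).2.2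

theorem bnd_factor {D : FactorData R p} (hD : IsFactor D) (h1 : Independent D (aff R R)) :
    Bnd True (Independent D) := by
  have h3 : IsAdd (addD D) :=
    { iso := fun hX e m => ⟨fun _ => trivial, by
        have h4 := fun l i => hD.iso hX e l i
        refine Prod.ext (congrArg Additive.ofMul ?_) (congrArg Additive.ofMul ?_) <;>
        · funext l
          simp only [fam, h4]⟩
      triple := fun i j hX ht m =>
        { total := fun _ _ => trivial
          opened := fun _ _ => trivial
          closed := fun _ _ => trivial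
          add := fun _ _ _ => by
            have h4 := fun l k => hD.triple i j hX ht l k
            refine Prod.ext ?_ ?_ <;>
            · change Additive.ofMul _ = Additive.ofMul (_ * _)
              congr 1
              funext l
              simp only [fam, h4, scale_mul]
              rfl }
      bundle := fun B _ _ _ r f U j hj hr m => ⟨Iff.rfl, by
        have h4 := fun l k => hD.bundle B r f U j hj hr l k
        refine Prod.ext (congrArg Additive.ofMul ?_) (congrArg Additive.ofMul ?_)
        · funext l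
          simp only [fam, h4, scale_add]
          congr 1
          · ring_nf
          · congr 1
            ring
        · funext l
          simp only [fam, h4, scale_add]
          congr 1
          · ring_nf
          · congr 1
            ring⟩
      torus := fun B _ _ _ m => ⟨fun _ => trivial, by
        have h4 := fun l k => hD.torus B l k
        have h5 : ∀ (i : ℤ), fam D m i (aff R (LaurentPolynomial B)) =
            fam D (m - 1) (i - 2) (aff R B) / fam D m i (aff R B) := by
          intro i
          funext l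
          simp only [fam, h4, scale_div, scale_add, Pi.div_apply]
          congr 3
          ring
        refine Prod.ext ?_ ?_
        · change Additive.ofMul (fam D m (2 * m) (aff R (LaurentPolynomial B))) =
            Additive.ofMul (fam D (m - 1) (2 * (m - 1)) (aff R B) / fam D m (2 * m) (aff R B))
          rw [h5]
          congr 3
          ring
        · change Additive.ofMul (fam D m (2 * m + 1) (aff R (LaurentPolynomial B))) =
            Additive.ofMul (fam D (m - 1) (2 * (m - 1) + 1) (aff R B) /
              fam D m (2 * m + 1) (aff R B))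
          rw [h5]
          congr 3
          ring⟩
      neg := fun B _ _ _ m hm => by
        have h4 := fun l k h => hD.neg B l k h
        refine Prod.ext ?_ ?_
        · change Additive.ofMul _ = Additive.ofMul 1
          congr 1
          funext l
          simp only [fam, h4 l (2 * m) (by omega), scale_one, Pi.one_apply]
        · change Additive.ofMul _ = Additive.ofMul 1
          congr 1
          funext l
          simp only [fam, h4 l (2 * m + 1) (by omega), scale_one, Pi.one_apply] }
  have h4 := bnd_add (S := indGroup p) h3 ((independent_iff D _).mp h1)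
  have h5 : Independent D = InAll (addD D) (indGroup p) :=
    funext fun X => propext (independent_iff D X)
  rw [h5]
  exact h4

end

end Pool.Agent.Q148.LI
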