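import Pool.Agent.Q193.LT.Defs

/-!
# Smooth projective schemes are proper
-/

set_option autoImplicit false

open CategoryTheory CategoryTheory.Limits AlgebraicGeometry Pool.Agent.Y116.UV Pool.Agent.Z125.UN
  Pool.Agent.Q193.LT

namespace Pool.Agent.Q148.LI

/-- `X` is smooth and proper over the field `k`. -/
structure SmoothProper {k : Type} [Field k] (X : Sch k) : Prop where
  smooth : Smooth X.hom
  proper : IsProper X.hom

attribute [local instance] MvPolynomial.gradedAlgebra

lemma proper_proj (k : Type) [Field k] (n : ℕ) : IsProper (projSpace k n).hom := by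
  have hsurj : Function.Bijective (algebraMap k
      (MvPolynomial.homogeneousSubmodule (Fin (n + 1)) k 0)) := by
    constructor
    · intro a b hab
      have h1 := congrArg (fun x : MvPolynomial.homogeneousSubmodule (Fin (n + 1)) k 0 =>
        (x : MvPolynomial (Fin (n + 1)) k)) hab
      exact MvPolynomial.C_injective _ _ h1
    · rintro ⟨x, hx⟩
      rw [MvPolynomial.mem_homogeneousSubmodule] at hx
      have h1 := MvPolynomial.totalDegree_eq_zero_iff_eq_C.mp ((MvPolynomial.totalDegree_zero_iff_isHomogeneous _).mpr hx)
      refine ⟨MvPolynomial.coeff 0 x, Subtype.ext ?_⟩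
      exact h1.symm
  have : Algebra.FiniteType (MvPolynomial.homogeneousSubmodule (Fin (n + 1)) k 0)
      (MvPolynomial (Fin (n + 1)) k) := by
    have : IsScalarTower k (MvPolynomial.homogeneousSubmodule (Fin (n + 1)) k 0)
        (MvPolynomial (Fin (n + 1)) k) := by
      refine ⟨fun a b c => ?_⟩
      change ((a • b : MvPolynomial.homogeneousSubmodule (Fin (n + 1)) k 0) :
        MvPolynomial (Fin (n + 1)) k) * c = a • ((b : MvPolynomial (Fin (n + 1)) k) * c)
      rw [← smul_mul_assoc]
      rfl
    exact Algebra.FiniteType.of_restrictScalars_finiteType k _ _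
  have h2 : IsIso (CommRingCat.ofHom (algebraMap k
      (MvPolynomial.homogeneousSubmodule (Fin (n + 1)) k 0))) := by
    exact (RingEquiv.ofBijective _ hsurj).toCommRingCatIso.isIso_hom
  change IsProper (Proj.toSpecZero (MvPolynomial.homogeneousSubmodule (Fin (n + 1)) k) ≫
      Spec.map (CommRingCat.ofHom
        (algebraMap k (MvPolynomial.homogeneousSubmodule (Fin (n + 1)) k 0))))
  infer_instance

lemma SmoothProj.proper' {k : Type} [Field k] {X : Sch k} (h : SmoothProj X) : SmoothProper X := by
  refine ⟨h.smooth, ?_⟩
  obtain ⟨n, i, hi⟩ := h.proj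
  have h1 := proper_proj k n
  have h2 : i.left ≫ (projSpace k n).hom = X.hom := Over.w i
  rw [← h2]
  infer_instance

lemma SmoothProper.ft {k : Type} [Field k] {X : Sch k} (h : SmoothProper X) : FT True X := by
  have := h.proper
  exact ⟨inferInstance, inferInstance, fun _ => inferInstance⟩

end Pool.Agent.Q148.LI
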