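import Pool.Agent.Q148.LI.Wt
import Pool.Agent.Q148.LI.Proper

/-!
# Jordan blocks of Frobenius
-/

set_option autoImplicit false

open CategoryTheory CategoryTheory.Limits AlgebraicGeometry Pool.Agent.Y116.UV Pool.Agent.Z125.UN
  Pool.Agent.Q193.LT Polynomial

namespace Pool.Agent.Q148.LI

/-- A module over `E[F]`: a vector space over `E` with an endomorphism `F`. -/
abbrev FMod (E : Type) [Field E] : Type 1 := ModuleCat.{0} E[X]

/-- The element `F - α`. -/
noncomputable def shiftF {E : Type} [Field E] (α : E) : E[X] := X - C α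

/-- The Jordan blocks of `F` on `V` with the eigenvalues in `S` have size one: the generalized eigenspaces
are eigenspaces. -/
def NoBlock {E : Type} [Field E] (S : Set E) (V : FMod E) : Prop :=
  ∀ α ∈ S, ∀ v : V, shiftF α ^ 2 • v = 0 → shiftF α • v = 0

/-- `V'` is the Tate twist `V(a)`: the same vector space, with the geometric Frobenius multiplied by
`q ^ (-a)`. -/
def FTwist {E : Type} [Field E] (q : ℕ) (a : ℤ) (V' V : FMod E) : Prop :=
  ∃ e : V' ≃+ V, (∀ (c : E) (x : V'), e (C c • x) = C c • e x) ∧
    ∀ x : V', e ((X : E[X]) • x) = C ((q : E) ^ (-a)) • (X : E[X]) • e x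

/-- The set `S` of eigenvalues is stable under multiplication with powers of `q`. -/
def Stable {E : Type} [Field E] (q : ℕ) (S : Set E) : Prop :=
  ∀ α ∈ S, ∀ a : ℤ, (q : E) ^ a * α ∈ S

section

variable {E : Type} [Field E] {q : ℕ} {S : Set E}

lemma e_shift {a : ℤ} {V' V : FMod E} (hq : (q : E) ≠ 0) (e : V' ≃+ V)
    (h1 : ∀ (c : E) (x : V'), e (C c • x) = C c • e x)
    (h2 : ∀ x : V', e ((X : E[X]) • x) = C ((q : E) ^ (-a)) • (X : E[X]) • e x) (α : E) (x : V') :
    e (shiftF α • x) = C ((q : E) ^ (-a)) • shiftF ((q : E) ^ a * α) • e x := by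
  unfold shiftF
  rw [sub_smul, map_sub, h1, h2, sub_smul, smul_sub]
  congr 1
  rw [← mul_smul, ← C_mul, ← mul_assoc, ← zpow_add₀ hq, neg_add_cancel, zpow_zero, one_mul]

lemma noBlock_twist {a : ℤ} {V' V : FMod E} (hq : (q : E) ≠ 0) (hS : Stable q S)
    (h : FTwist q a V' V) : NoBlock S V' ↔ NoBlock S V := by
  obtain ⟨e, h1, h2⟩ := h
  have he := e_shift hq e h1 h2
  have hinv : ∀ x : V, C ((q : E) ^ (-a)) • x = 0 → x = 0 := by
    intro x hx
    have h3 : C ((q : E) ^ a) • C ((q : E) ^ (-a)) • x = x := by
      rw [← mul_smul, ← C_mul, ← zpow_add₀ hq, add_neg_cancel, zpow_zero, C_1, one_smul]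
    rw [← h3, hx, smul_zero]
  have he2 : ∀ (α : E) (x : V'), e (shiftF α ^ 2 • x) =
      C ((q : E) ^ (-a)) • C ((q : E) ^ (-a)) • shiftF ((q : E) ^ a * α) ^ 2 • e x := by
    intro α x
    rw [pow_two, mul_smul, he, he, pow_two, mul_smul, smul_comm (shiftF _) (C _)]
  constructor
  · intro hV α hα v hv
    have h3 := hV ((q : E) ^ (-a) * α) (hS α hα (-a)) (e.symm v)
    have h4 : (q : E) ^ a * ((q : E) ^ (-a) * α) = α := by
      rw [← mul_assoc, ← zpow_add₀ hq, add_neg_cancel, zpow_zero, one_mul]
    have h5 : shiftF ((q : E) ^ (-a) * α) ^ 2 • e.symm v = 0 := by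
      apply e.injective
      rw [he2, h4, e.apply_symm_apply, hv, smul_zero, smul_zero, map_zero]
    have h6 := congrArg e (h3 h5)
    rw [he, h4, e.apply_symm_apply, map_zero] at h6
    exact hinv _ h6
  · intro hV α hα v hv
    have h3 := congrArg e hv
    rw [he2, map_zero] at h3
    have h4 := hV _ (hS α hα a) (e v) (hinv _ (hinv _ h3))
    apply e.injective
    rw [he, h4, smul_zero, map_zero]

lemma noBlock_mono {V W : FMod E} (f : V ⟶ W) (hf : Mono f) (h : NoBlock S W) : NoBlock S V := by
  intro α hα v hv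
  have hi : Function.Injective f.hom := (ModuleCat.mono_iff_injective f).mp hf
  apply hi
  rw [map_smul, map_zero]
  apply h α hα
  rw [← map_smul, hv, map_zero]

end

variable {k : Type} [Field k] {E : Type} [Field E]

/-- `X` is complete (proper over `k`). -/
def Complete (X : Sch k) : Prop := IsProper X.hom

lemma Complete.ft {X : Sch k} (h : Complete X) : FT True X := by
  have h' : IsProper X.hom := h
  exact ⟨inferInstance, inferInstance, fun _ => inferInstance⟩

/-- What is used about the `ℓ`-adic cohomology `H j X` of complete schemes `X` over a finite field with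
`q` elements and the parts `D.G w j X` of weight `w` of the cohomology with compact supports `H^j_c(X)`,
with the geometric Frobenius `F`:

* `wt`, `device`: the properties of `IsWt`, `Device`;
* `twist`: `F` on the Tate twist;
* `top`: in the degrees `j ≥ 2 n` the cohomology of a closed subscheme of `𝔸^n` is a twist of a
  permutation representation or zero, so that there are no Jordan blocks of size two;
* `full`: `H^j(X)` is the direct sum of its parts of weight `w` (their eigenvalues are different);
* `subquotient`: `Gr^W_w H^j_c(X)` is a subquotient of `H^w(Y)` for a smooth projective scheme `Y` (Deligne,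
  de Jong), so that there are no Jordan blocks of size two with eigenvalues in `S` if there are none for
  smooth projective schemes. -/
structure IsFrob (D : WtData k (FMod E)) (H : ℤ → Sch k → FMod E) (q : ℕ) : Prop where
  wt : IsWt D
  device : Device D
  twist : ∀ (a : ℤ) (V : FMod E), FTwist q a (D.tw a V) V
  top : ∀ (n : ℕ) (I : Ideal (MvPolynomial (Fin n) k)) (w j : ℤ), 2 * n ≤ j →
    NoBlock Set.univ (D.G w j (aff k (MvPolynomial (Fin n) k ⧸ I)))
  full : ∀ X : Sch k, Complete X → ∀ (S : Set E) (j : ℤ),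
    NoBlock S (H j X) ↔ ∀ w, NoBlock S (D.G w j X)
  subquotient : ∀ S : Set E, (∀ Y : Sch k, SmoothProj Y → ∀ j, NoBlock S (D.G j j Y)) →
    ∀ X : Sch k, FT True X → ∀ w j, NoBlock S (D.G w j X)

variable {D : WtData k (FMod E)} {H : ℤ → Sch k → FMod E} {q : ℕ} {S : Set E}

lemma IsFrob.sub (h : IsFrob D H q) (hq : (q : E) ≠ 0) (hS : Stable q S) :
    IsSub D (NoBlock S) where
  mono := fun f hf hY => noBlock_mono f hf hY
  twist := fun a V => noBlock_twist hq hS (h.twist a V)
  top := fun n I w j hj α _ v hv => h.top n I w j hj α trivial v hv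

end Pool.Agent.Q148.LI
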