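import Pool.Agent.Q148.LI.Frob
import Pool.Agent.Q193.LT.Cyc

/-!
# Frobenius on weight complexes
-/

set_option autoImplicit false

open CategoryTheory CategoryTheory.Limits AlgebraicGeometry Pool.Agent.Y116.UV Pool.Agent.Z125.UN
  Pool.Agent.Q193.LT Polynomial

namespace Pool.Agent.Q148.LI

section

variable {R : Type} [CommRing R]

/-- `ρ : P → Q` is the natural map `ker r → V / r V`: there are an injective map `i : P → V` with image the
kernel of `r` and a surjective map `p : V → Q` with kernel `r V` such that `ρ = p i`. -/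
def IsNat {E : Type} [CommRing E] {P Q : ModuleCat.{0} E} (ρ : P ⟶ Q) (r : R)
    (V : ModuleCat.{0} R) : Prop :=
  ∃ (i : P →+ V) (p : V →+ Q), (Function.Injective i ∧ ∀ v, (∃ x, i x = v) ↔ r • v = 0) ∧
    (Function.Surjective p ∧ ∀ v, p v = 0 ↔ ∃ u : V, r • u = v) ∧ ∀ x : P, ρ.hom x = p (i x)

lemma IsNat.bij_iff {E : Type} [CommRing E] {P Q : ModuleCat.{0} E} {ρ : P ⟶ Q} {r : R}
    {V : ModuleCat.{0} R} (h : IsNat ρ r V) (hV : IsArtinian R V) :
    Function.Bijective ρ.hom ↔ ∀ v : V, r ^ 2 • v = 0 → r • v = 0 := by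
  obtain ⟨i, p, ⟨hi, hi'⟩, ⟨hp, hp'⟩, hρ⟩ := h
  constructor
  · intro h v hv
    obtain ⟨x, hx⟩ := (hi' (r • v)).mpr (by rw [← mul_smul, ← pow_two]; exact hv)
    have h2 : ρ.hom x = ρ.hom 0 := by
      rw [map_zero, hρ, hx]
      exact (hp' _).mpr ⟨v, rfl⟩
    rw [← hx, h.1 h2, map_zero]
  · intro h
    constructor
    · rw [injective_iff_map_eq_zero]
      intro x h0
      rw [hρ] at h0
      obtain ⟨u, hu⟩ := (hp' _).mp h0
      apply hi
      rw [map_zero, ← hu]
      refine h u ?_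
      rw [pow_two, mul_smul, hu]
      exact (hi' _).mp ⟨x, rfl⟩
    · let φ := LinearMap.lsmul R V r
      let ψ : LinearMap.range φ →ₗ[R] LinearMap.range φ :=
        φ.restrict (fun x _ => ⟨x, rfl⟩)
      have hψ : Function.Injective ψ := by
        rw [injective_iff_map_eq_zero]
        rintro ⟨v, u, hu⟩ h0
        have h1 : φ v = 0 := congrArg Subtype.val h0
        apply Subtype.ext
        change v = 0
        rw [← hu] at h1 ⊢
        exact h u (by rw [pow_two, mul_smul]; exact h1)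
      have hs : Function.Surjective ψ := IsArtinian.surjective_of_injective_endomorphism ψ hψ
      intro y
      obtain ⟨v, rfl⟩ := hp y
      obtain ⟨⟨u, hu⟩, h1⟩ := hs ⟨φ v, v, rfl⟩
      have h2 : r • u = r • v := congrArg Subtype.val h1
      obtain ⟨x, hx⟩ := (hi' (v - u)).mpr (by rw [smul_sub, h2, sub_self])
      refine ⟨x, ?_⟩
      obtain ⟨t, ht⟩ := hu
      rw [hρ, hx, map_sub, (hp' u).mpr ⟨t, ht⟩, sub_zero]

end

/-- The indices: the weight `w`, the eigenvalue `α ∈ S`, the degree `i`. -/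
abbrev FIdx {E : Type} (S : Set E) : Type := ℤ × S × ℤ

/-- `(w, α, i) ↦ (w, α, i + 1)` -/
def degUp {E : Type} (S : Set E) : FIdx S ≃ FIdx S :=
  Equiv.prodCongr (Equiv.refl ℤ) (Equiv.prodCongr (Equiv.refl S) (Equiv.addRight 1))

/-- `α ↦ q α` -/
noncomputable def mulS {E : Type} [Field E] {q : ℕ} (hq : (q : E) ≠ 0) {S : Set E} (hS : Stable q S) :
    S ≃ S where
  toFun α := ⟨(q : E) ^ (1 : ℤ) * α, hS α α.2 1⟩
  invFun α := ⟨(q : E) ^ (-1 : ℤ) * α, hS α α.2 (-1)⟩
  left_inv α := by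
    apply Subtype.ext
    change (q : E) ^ (-1 : ℤ) * ((q : E) ^ (1 : ℤ) * α) = α
    rw [← mul_assoc, ← zpow_add₀ hq, neg_add_cancel, zpow_zero, one_mul]
  right_inv α := by
    apply Subtype.ext
    change (q : E) ^ (1 : ℤ) * ((q : E) ^ (-1 : ℤ) * α) = α
    rw [← mul_assoc, ← zpow_add₀ hq, add_neg_cancel, zpow_zero, one_mul]

/-- `(w, α, i) ↦ (w + 2, q α, i)` -/
noncomputable def twUp {E : Type} [Field E] {q : ℕ} (hq : (q : E) ≠ 0) {S : Set E} (hS : Stable q S) :
    FIdx S ≃ FIdx S :=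
  Equiv.prodCongr (Equiv.addRight 2) (Equiv.prodCongr (mulS hq hS) (Equiv.refl ℤ))

/-- `V` is artinian; this holds if `V` has finite dimension over `E`. -/
def FinDim {R : Type} [CommRing R] (V : ModuleCat.{0} R) : Prop := IsArtinian R V

/-- What is used about the cohomology `V w Y` of smooth projective schemes `Y` with the Frobenius `F`, and
about the maps `C.ρ (w, α, i) X : H^i(ker (F - α)) → H^i(coker (F - α))` for the complex
`H^w(W(X))`, where `W(X)` is the weight complex of `X` (Gillet, Soulé; with rational coefficients in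
characteristic `p` by Bondarko):

* `pair`: long exact sequences, affine bundles, products with `𝔾_m` (see `IsPair`);
* `gen`: smooth projective schemes generate (see `WeightGen`);
* `point`: the case of the point;
* `artin`: the cohomology is of finite dimension;
* `link`, `other`: for smooth projective `Y` the weight complex is the motive of `Y` in degree `0`. -/
structure IsFrobW {k : Type} [Field k] {E : Type} [Field E] {S : Set E}
    (C : PairData.{0} k (FIdx S) E) (V : ℤ → Sch k → FMod E) (q : ℕ) : Prop where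
  pair : ∀ (hq : (q : E) ≠ 0) (hS : Stable q S), IsPair C (degUp S) (twUp hq hS) (degUp S)
  gen : WeightGen C
  point : BijAll C (aff k k)
  artin : ∀ Y : Sch k, SmoothProj Y → ∀ w, FinDim (V w Y)
  link : ∀ Y : Sch k, SmoothProj Y → ∀ (w : ℤ) (α : S),
    IsNat (C.ρ (w, α, 0) Y) (shiftF α.1) (V w Y)
  other : ∀ Y : Sch k, SmoothProj Y → ∀ (w : ℤ) (α : S) (i : ℤ), i ≠ 0 →
    Subsingleton (C.A (w, α, i) Y) ∧ Subsingleton (C.B (w, α, i) Y)

section

variable {k : Type} [Field k] {E : Type} [Field E] {S : Set E} {C : PairData.{0} k (FIdx S) E}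
  {V : ℤ → Sch k → FMod E} {q : ℕ}

lemma IsFrobW.bij_iff' (h : IsFrobW C V q) {Y : Sch k} (hY : SmoothProj Y) :
    BijAll C Y ↔ ∀ w, NoBlock S (V w Y) := by
  have h1 : ∀ (w : ℤ) (α : S), Function.Bijective (C.ρ (w, α, 0) Y).hom ↔
      ∀ v : V w Y, shiftF α.1 ^ 2 • v = 0 → shiftF α.1 • v = 0 :=
    fun w α => (h.link Y hY w α).bij_iff (h.artin Y hY w)
  constructor
  · intro h2 w α hα
    exact (h1 w ⟨α, hα⟩).mp (h2 (w, ⟨α, hα⟩, 0))
  · rintro h2 ⟨w, α, i⟩
    by_cases hi : i = 0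
    · subst hi
      exact (h1 w α).mpr (h2 w α.1 α.2)
    · obtain ⟨h3, h4⟩ := h.other Y hY w α i hi
      exact ⟨Function.injective_of_subsingleton _, fun y => ⟨0, Subsingleton.elim _ _⟩⟩

end

end Pool.Agent.Q148.LI
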