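import Pool.Agent.Q148.LI.Wt
import Pool.Agent.Q193.LT.Gal

/-!
# Semisimple Galois representations as a class closed under subobjects
-/

set_option autoImplicit false

open CategoryTheory CategoryTheory.Limits AlgebraicGeometry Pool.Agent.Y116.UV Pool.Agent.Z125.UN
  Pool.Agent.Q193.LT

universe w

namespace Pool.Agent.Q148.LI

/-- Representations of the absolute Galois group of `k` over `ℚ_ℓ`: modules over the group algebra. -/
abbrev GRep (k : Type) [Field k] (ℓ : ℕ) [Fact ℓ.Prime] : Type (w + 1) := ModuleCat.{w} (GalAlg k ℓ)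

/-- `V'` is the Tate twist `V(a)`, where `χ` is the cyclotomic character: there is an additive
isomorphism `e : V' → V` with `e (σ x) = χ(σ) ^ a σ e(x)`; so `e` is semilinear for the automorphism of the
group algebra with `σ ↦ χ(σ) ^ a σ`. -/
def GTwist {k : Type} [Field k] {ℓ : ℕ} [Fact ℓ.Prime]
    (χ : Field.absoluteGaloisGroup k →* ℚ_[ℓ]ˣ) (a : ℤ) (V' V : GRep.{w} k ℓ) : Prop :=
  ∃ (θ : GalAlg k ℓ ≃+* GalAlg k ℓ) (e : V' ≃+ V),
    (∀ σ, θ (MonoidAlgebra.single σ 1) = MonoidAlgebra.single σ ((χ σ ^ a : ℚ_[ℓ]ˣ) : ℚ_[ℓ])) ∧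
    ∀ (c : GalAlg k ℓ) (x : V'), e (c • x) = θ c • e x

/-- The representation `V` is semisimple: every stable subspace has a stable complement. -/
def SS {k : Type} [Field k] {ℓ : ℕ} [Fact ℓ.Prime] (V : GRep.{w} k ℓ) : Prop :=
  IsSemisimpleModule (GalAlg k ℓ) V

section

variable {k : Type} [Field k] {ℓ : ℕ} [Fact ℓ.Prime]

lemma ss_twist {χ : Field.absoluteGaloisGroup k →* ℚ_[ℓ]ˣ} {a : ℤ} {V' V : GRep.{w} k ℓ}
    (h : GTwist χ a V' V) : SS V' ↔ SS V := by
  obtain ⟨θ, e, -, he⟩ := h
  let σ : GalAlg k ℓ →+* GalAlg k ℓ := θ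
  let σ' : GalAlg k ℓ →+* GalAlg k ℓ := θ.symm
  have i1 : RingHomInvPair σ σ' := ⟨RingHom.ext fun x => θ.symm_apply_apply x,
    RingHom.ext fun x => θ.apply_symm_apply x⟩
  have i2 : RingHomInvPair σ' σ := ⟨RingHom.ext fun x => θ.apply_symm_apply x,
    RingHom.ext fun x => θ.symm_apply_apply x⟩
  let E : V' ≃ₛₗ[σ] V := { e with map_smul' := he }
  let o : Submodule (GalAlg k ℓ) V' ≃o Submodule (GalAlg k ℓ) V := Submodule.orderIsoMapComap E
  unfold SS
  rw [isSemisimpleModule_iff, isSemisimpleModule_iff]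
  exact o.complementedLattice_iff

lemma ss_mono {V W : GRep.{w} k ℓ} (f : V ⟶ W) (hf : Mono f) (h : SS W) : SS V := by
  have hi : Function.Injective f.hom := (ModuleCat.mono_iff_injective f).mp hf
  have h' : IsSemisimpleModule (GalAlg k ℓ) W := h
  exact IsSemisimpleModule.of_injective f.hom hi

end

/-- What is used about the parts `D.G w j X` of weight `w` of the `ℓ`-adic cohomology with compact
supports `H^j_c(X)` of the separated schemes of finite type over a finitely generated field `k`, as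
representations of the absolute Galois group, and its cyclotomic character `χ`:

* `wt`, `device`: the properties of `IsWt`, `Device`;
* `twist`: the Tate twists;
* `top`: in the degrees `j ≥ 2 n` the cohomology of a closed subscheme of `𝔸^n` is a twist of a
  permutation representation or zero, so it is semisimple;
* `subquotient`: `Gr^W_w H^j_c(X)` is a subquotient of `H^w(Y)` for a smooth projective scheme `Y` (Deligne,
  de Jong), so it is semisimple if the cohomology of smooth projective schemes is. -/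
structure IsGal {k : Type} [Field k] {ℓ : ℕ} [Fact ℓ.Prime] (D : WtData k (GRep.{w} k ℓ))
    (χ : Field.absoluteGaloisGroup k →* ℚ_[ℓ]ˣ) : Prop where
  wt : IsWt D
  device : Device D
  twist : ∀ (a : ℤ) (V : GRep.{w} k ℓ), GTwist χ a (D.tw a V) V
  top : ∀ (n : ℕ) (I : Ideal (MvPolynomial (Fin n) k)) (w j : ℤ), 2 * n ≤ j →
    SS (D.G w j (aff k (MvPolynomial (Fin n) k ⧸ I)))
  subquotient : (∀ Y : Sch k, SmoothProj Y → ∀ j, SS (D.G j j Y)) →
    ∀ X : Sch k, FT True X → ∀ w j, SS (D.G w j X)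

variable {k : Type} [Field k] {ℓ : ℕ} [Fact ℓ.Prime] {D : WtData k (GRep.{w} k ℓ)}
    {χ : Field.absoluteGaloisGroup k →* ℚ_[ℓ]ˣ}

lemma IsGal.sub (h : IsGal D χ) : IsSub D SS where
  mono := fun f hf hY => ss_mono f hf hY
  twist := fun a V => ss_twist (h.twist a V)
  top := h.top

end Pool.Agent.Q148.LI
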