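import Pool.Agent.Q193.LT.Prime

/-!
# Two steps of the weight filtration

A weaker form of the closure properties of `Pool.Agent.Y116.UV`: there are two properties `P₀`, `P₁` of
schemes, `P₁` for the hypersurfaces `T(x, y, z) = 1`, `P₀` for all affine schemes; no property has to
be closed under extensions.
-/

set_option autoImplicit false

open CategoryTheory AlgebraicGeometry TopologicalSpace MvPolynomial Pool.Agent.Y116.UV

namespace Pool.Agent.Q148.LI

/-- `P₀` passes to open subschemes and from `X × 𝔾_m` to `X`, and `P₁` for the affine bundle of Jouanolou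
over the complement of a closed subscheme `Z` of an affine space gives `P₀` for `Z`. -/
structure TopPair {R : Type} [CommRing R] (P₀ P₁ : Sch R → Prop) : Prop where
  iso₀ : ∀ {X Y : Sch R}, FT True X → Nonempty (X ≅ Y) → P₀ X → P₀ Y
  iso₁ : ∀ {X Y : Sch R}, FT True X → Nonempty (X ≅ Y) → P₁ X → P₁ Y
  jou : ∀ (σ : Type) [Finite σ] (m : ℕ) (f : Fin m → MvPolynomial σ R), P₁ (aff R (Jou f)) →
    P₀ (aff R (MvPolynomial σ R ⧸ Ideal.span (Set.range f)))
  opened : ∀ {Z X U : Sch R} (i : Z ⟶ X) (j : U ⟶ X), FT True X → IsTriple i j → P₀ X → P₀ U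
  torus : ∀ (A : Type) [CommRing A] [Algebra R A] [Algebra.FiniteType R A],
    P₀ (aff R (LaurentPolynomial A)) → P₀ (aff R A)

variable {R : Type} [CommRing R] {P₀ P₁ : Sch R → Prop}

section

variable {S : Set R} (hP : TopPair P₀ P₁) (h0 : 0 ∈ S) (h1 : 1 ∈ S)
  (hH : ∀ (a b c : ℕ) (T : Fin a → Fin b → Fin c → R), (∀ i j k, T i j k ∈ S) →
    P₁ (aff R (Hyp T)))

include hP hH

lemma top_fintype {α β γ : Type} [Fintype α] [Fintype β] [Fintype γ] (T : α → β → γ → R)
    (hT : ∀ i j k, T i j k ∈ S) : P₁ (aff R (Hyp T)) :=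
  hP.iso₁ (ft_aff True) ⟨(affIso (hypRename (Fintype.equivFin α).symm (Fintype.equivFin β).symm
    (Fintype.equivFin γ).symm T)).symm⟩ (hH _ _ _ _ fun _ _ _ => hT _ _ _)

lemma top_bil {β γ κ : Type} [Fintype β] [Fintype γ] [Fintype κ] (f : κ → MvPolynomial (β ⊕ γ) R)
    (hf : ∀ k, f k ∈ bilIn S β γ) :
    P₀ (aff R (MvPolynomial (β ⊕ γ) R ⧸ Ideal.span (Set.range f))) := by
  let e := (Fintype.equivFin κ).symm
  have h1 : Set.range f = Set.range (f ∘ e) := by
    rw [Set.range_comp, e.range_eq_univ, Set.image_univ]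
  rw [h1]
  choose T hTS hT using hf
  refine hP.jou (β ⊕ γ) _ (f ∘ e) ?_
  have h2 : f ∘ e = fun i => bil β γ (T (e i)) := by
    funext i
    exact (hT (e i)).symm
  rw [h2]
  exact hP.iso₁ (ft_aff True) ⟨(affIso (hypEquiv fun i => T (e i))).symm⟩
    (top_fintype hP hH _ fun _ _ _ => hTS _ _ _)

include h0 h1

lemma top_cone {A : Type} [CommRing A] [Algebra R A] [Algebra.FiniteType R A] {n D : ℕ} (hD : 1 ≤ D)
    (G : Finset (MvPolynomial (Fin n) R)) (φ : MvPolynomial (Fin n) R →ₐ[R] A)
    (hd : ∀ g ∈ G, ∀ m ∈ g.support, m.degree ≤ D) (hs : Function.Surjective φ)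
    (hK : RingHom.ker φ = Ideal.span (G : Set (MvPolynomial (Fin n) R)))
    (hc : ∀ g ∈ G, ∀ m, coeff m g ∈ S) : P₀ (aff R A) := by
  classical
  have hG : ∀ g ∈ G, φ g = 0 := by
    intro g hg
    have : g ∈ RingHom.ker φ := by
      rw [hK]
      exact Ideal.subset_span hg
    exact this
  have hA : P₀ (aff R (Cone hD G)) := top_bil hP hH (eqs hD G) (eqs_mem hD G h0 h1 hc)
  have h5 : P₀ (aff R (LCone hD G)) := hP.opened _ _ (ft_aff True) (triple_away (cw hD G)) hA
  have h6 : Algebra.FiniteType R (LCone hD G) :=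
    Algebra.FiniteType.trans (S := Cone hD G) inferInstance inferInstance
  have h7 := ft_laurent (R := R) A
  exact hP.torus A (hP.torus _ (hP.iso₀ (ft_aff True)
    ⟨(affIso (coneEquiv hD G φ hG hd hs hK)).symm⟩ h5))

/-- If `P₁` is true for the hypersurfaces `T(x, y, z) = 1` of the trilinear forms with coefficients in
`S`, then `P₀` is true for all affine schemes of finite type. -/
theorem top_affine (hS : Presents S) (A : Type) [CommRing A] [Algebra R A]
    [Algebra.FiniteType R A] : P₀ (aff R A) := by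
  classical
  obtain ⟨n, φ, G, hs, hK, hc⟩ := hS A
  let D : ℕ := 1 + ∑ g ∈ G, ∑ m ∈ g.support, m.degree
  refine top_cone hP h0 h1 hH (D := D) (by omega) G φ ?_ hs hK hc
  intro g hg m hm
  have h1 : m.degree ≤ ∑ m ∈ g.support, m.degree :=
    Finset.single_le_sum (f := fun m : Fin n →₀ ℕ => m.degree) (fun _ _ => Nat.zero_le _) hm
  have h2 : ∑ m ∈ g.support, m.degree ≤ ∑ g ∈ G, ∑ m ∈ g.support, m.degree :=
    Finset.single_le_sum (f := fun g : MvPolynomial (Fin n) R => ∑ m ∈ g.support, m.degree)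
      (fun _ _ => Nat.zero_le _) hg
  omega

end

/-- All trilinear forms. -/
theorem top_all [IsNoetherianRing R] (hP : TopPair P₀ P₁)
    (hH : ∀ (a b c : ℕ) (T : Fin a → Fin b → Fin c → R), P₁ (hypS T))
    (A : Type) [CommRing A] [Algebra R A] [Algebra.FiniteType R A] : P₀ (aff R A) :=
  top_affine hP (S := Set.univ) trivial trivial (fun a b c T _ => hH a b c T) presents_univ A

/-- Tripartite hypergraphs, over a ring whose elements are quotients of integers. -/
theorem top_graph [IsNoetherianRing R] (hR : Q193.LT.Frac R) (hP : TopPair P₀ P₁)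
    (hH : ∀ (a b c : ℕ) (H : Finset (Fin a × Fin b × Fin c)), P₁ (tripS R H))
    (A : Type) [CommRing A] [Algebra R A] [Algebra.FiniteType R A] : P₀ (aff R A) := by
  classical
  refine top_affine hP (S := {0, 1}) (Or.inl rfl) (Or.inr rfl) ?_
    (Q193.LT.presents_frac hR) A
  intro a b c T hT
  let H : Finset (Fin a × Fin b × Fin c) := Finset.univ.filter fun h => T h.1 h.2.1 h.2.2 = 1
  have h1 : T = fun i j k => if (i, j, k) ∈ H then (1 : R) else 0 := by
    funext i j k
    have hm : (i, j, k) ∈ H ↔ T i j k = 1 := by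
      rw [Finset.mem_filter]
      exact ⟨fun h => h.2, fun h => ⟨Finset.mem_univ _, h⟩⟩
    by_cases h : T i j k = 1
    · rw [if_pos (hm.mpr h), h]
    · rw [if_neg fun h2 => h (hm.mp h2)]
      rcases hT i j k with h2 | h2
      · exact h2
      · exact absurd h2 h
  have h2 := hH a b c H
  unfold tripS Trip at h2
  rw [← tri_ind, ← h1] at h2
  exact h2

end Pool.Agent.Q148.LI
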