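import Pool.Agent.Q193.LT.Full

/-!
# Purity of the monodromy filtration as a class of motives
-/

set_option autoImplicit false

open CategoryTheory CategoryTheory.Limits AlgebraicGeometry Pool.Agent.Y116.UV Pool.Agent.Z125.UN
  Pool.Agent.Q193.LT

universe w v u

namespace Pool.Agent.Q148.LI

/-- A module over this algebra is a vector space over `E` with a linear operator `N` and linear operators
`g` for the elements `g` of `G`. -/
abbrev OpAlg (E G : Type) [Field E] : Type := FreeAlgebra E (Option G)

/-- The operator `N`. -/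
def opN (E G : Type) [Field E] : OpAlg E G := FreeAlgebra.ι E none

/-- The operator `g`. -/
def op (E : Type) {G : Type} [Field E] (g : G) : OpAlg E G := FreeAlgebra.ι E (some g)

/-- The scalar `c`. -/
def scal {E : Type} (G : Type) [Field E] (c : E) : OpAlg E G := algebraMap E (OpAlg E G) c

/-- The step `M_j = ∑_k N ^ k (ker N ^ (j + 2 k + 1))` of the monodromy filtration of `N` (the kernel is
zero if the exponent is not positive). -/
def fil (E G : Type) [Field E] (V : Type w) [AddCommGroup V] [Module (OpAlg E G) V] (j : ℤ) :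
    AddSubgroup V :=
  AddSubgroup.closure {x | ∃ (k : ℕ) (y : V),
    opN E G ^ (j + 2 * k + 1).toNat • y = 0 ∧ opN E G ^ k • y = x}

/-- `c` is an algebraic number, and all its complex conjugates have the absolute value `p ^ (m / 2)`. -/
def IsWeil {E : Type} [Field E] [CharZero E] (p : ℕ) (m : ℤ) (c : E) : Prop :=
  ∃ a : algebraicClosure ℚ E, (a : E) = c ∧
    ∀ φ : algebraicClosure ℚ E →+* ℂ, ‖φ a‖ = (p : ℝ) ^ ((m : ℝ) / 2)

/-- For all `j` and `g`, all eigenvalues of `g` on `M_j / M_{j-1}` are algebraic numbers all of whose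
complex conjugates have the absolute value `p ^ ((m + j) d(g) / 2)`. -/
def Pure (E : Type) {G : Type} [Field E] [CharZero E] (p : ℕ) (d : G → ℤ) (m : ℤ) (V : Type w)
    [AddCommGroup V] [Module (OpAlg E G) V] : Prop :=
  ∀ (j : ℤ) (g : G) (x : V) (c : E), x ∈ fil E G V j → x ∉ fil E G V (j - 1) →
    op E g • x - scal G c • x ∈ fil E G V (j - 1) → IsWeil p ((m + j) * d g) c

section

variable {E G : Type} [Field E] {V W : Type w} [AddCommGroup V] [Module (OpAlg E G) V]
  [AddCommGroup W] [Module (OpAlg E G) W]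

lemma fil_map (f : V →+ W) (hf : ∀ x, f (opN E G • x) = opN E G • f x) {j : ℤ} {x : V}
    (hx : x ∈ fil E G V j) : f x ∈ fil E G W j := by
  have hp : ∀ (n : ℕ) (x : V), f (opN E G ^ n • x) = opN E G ^ n • f x := by
    intro n
    induction n with
    | zero => intro x; simp
    | succ n ih => intro x; rw [pow_succ, mul_smul, mul_smul, ih, hf]
  induction hx using AddSubgroup.closure_induction with
  | mem x hx =>
    obtain ⟨k, y, h1, rfl⟩ := hx
    refine AddSubgroup.subset_closure ⟨k, f y, ?_, ?_⟩
    · rw [← hp, h1, map_zero]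
    · rw [hp]
  | zero => rw [map_zero]; exact zero_mem _
  | add x y _ _ hx hy => rw [map_add]; exact add_mem hx hy
  | neg x _ hx => rw [map_neg]; exact neg_mem hx

lemma scal_comm (c : E) (a : OpAlg E G) : scal G c * a = a * scal G c := Algebra.commutes c a

lemma scal_mul (a b : E) : scal G a * scal G b = scal G (a * b) :=
  (map_mul (algebraMap E (OpAlg E G)) a b).symm

lemma scal_one : scal G (1 : E) = 1 := map_one (algebraMap E (OpAlg E G))

lemma fil_scal (c : E) {j : ℤ} {x : V} (hx : x ∈ fil E G V j) :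
    scal G c • x ∈ fil E G V j := by
  refine fil_map (DistribSMul.toAddMonoidHom V (scal G c)) (fun y => ?_) hx
  change scal G c • opN E G • y = opN E G • scal G c • y
  rw [← mul_smul, ← mul_smul, scal_comm]

end

section

variable {E G : Type} [Field E] [CharZero E] {p : ℕ}

lemma IsWeil.mul [hp : Fact p.Prime] {m : ℤ} {c : E} (h : IsWeil p m c) (b : ℤ) :
    IsWeil p (m + 2 * b) ((p : E) ^ b * c) := by
  obtain ⟨a, ha, h1⟩ := h
  have hp0 : (0 : ℝ) < p := by exact_mod_cast hp.out.pos
  refine ⟨(p : algebraicClosure ℚ E) ^ b * a, ?_, fun φ => ?_⟩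
  · rw [← ha]
    push_cast
    rfl
  · rw [map_mul, norm_mul, h1, map_zpow₀, map_natCast, norm_zpow]
    rw [Complex.norm_natCast, ← Real.rpow_intCast, ← Real.rpow_add hp0]
    congr 1
    push_cast
    ring

end

/-- The additive map `e` commutes with the operators `a` on `V` and `b` on `W`. -/
def Commutes {E G : Type} [Field E] {V W : ModuleCat.{w} (OpAlg E G)} (e : V ≃+ W)
    (a b : OpAlg E G) : Prop :=
  ∀ x : V, e (a • x) = b • e x

/-- `V` is the Tate twist `W(a)`: the same vector space with the same `N`, and with `g` multiplied by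
`p ^ (- a d(g))`. -/
def Twisted {E G : Type} [Field E] (p : ℕ) (d : G → ℤ) (a : ℤ) (V W : ModuleCat.{w} (OpAlg E G)) :
    Prop :=
  ∃ e : V ≃+ W, Commutes e (opN E G) (opN E G) ∧ (∀ c : E, Commutes e (scal G c) (scal G c)) ∧
    ∀ g : G, Commutes e (op E g) (scal G ((p : E) ^ (-(a * d g))) * op E g)

section

variable {k : Type} [Field k] {M : Type u} [Category.{v} M] [Abelian M] {E G : Type} [Field E]

/-- What is used about a category `M` of motives over `k` and its realization with the operators `N` and
`g ∈ G`; `ω w N` is the part of weight `w` of the realization of `N`.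

* `compact`, `generated`: the properties of the graded objects `D.H i X` of the weight filtration of the
  cohomology with compact supports (see `IsCompact`, `Generated`);
* `semisimple`: every monomorphism of `M` splits;
* `additive`: the realization is additive;
* `twist`: the part of weight `w` of `N(a)` is the Tate twist by `a` of the part of weight `w + 2 a` of
  `N`. -/
structure IsRealized (D : CompactData k M) (p : ℕ) (d : G → ℤ)
    (ω : ℤ → (M ⥤ ModuleCat.{w} (OpAlg E G))) : Prop where
  compact : IsCompact D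
  generated : Generated D
  semisimple : ∀ {X Y : M} (f : X ⟶ Y), Mono f → ∃ r : Y ⟶ X, f ≫ r = 𝟙 X
  additive : ∀ m, (ω m).Additive
  twist : ∀ (a m : ℤ) (N : M), Twisted p d a ((ω m).obj ((D.tw a).obj N)) ((ω (m + 2 * a)).obj N)

/-- For all `m` the part of weight `m` of the realization of `N` is pure of weight `m` (for `g ∈ G`, `N`
and the monodromy filtration). -/
def PureAt [CharZero E] (p : ℕ) (d : G → ℤ) (ω : ℤ → (M ⥤ ModuleCat.{w} (OpAlg E G))) (N : M) :
    Prop :=
  ∀ m, Pure E p d m ((ω m).obj N)

variable {D : CompactData k M} {p : ℕ} {d : G → ℤ} {ω : ℤ → (M ⥤ ModuleCat.{w} (OpAlg E G))}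

theorem IsRealized.pure [CharZero E] [hp : Fact p.Prime] (h : IsRealized D p d ω) :
    IsTateSerre D (PureAt p d ω) := by
  have hadd := h.additive
  have hmap : ∀ {X Y : M} (m : ℤ) (f : X ⟶ Y) {j : ℤ} {x : (ω m).obj X},
      x ∈ fil E G ((ω m).obj X) j → ((ω m).map f).hom x ∈ fil E G ((ω m).obj Y) j := by
    intro X Y m f j x hx
    exact fil_map ((ω m).map f).hom.toAddMonoidHom (fun y => ((ω m).map f).hom.map_smul _ _) hx
  have hs : IsSerre (PureAt p d ω) := by
    refine serre_of_semisimple h.semisimple ?_ ?_ ?_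
    · intro X hX m j g x c h1 h2 h3
      exfalso
      apply h2
      have h4 : IsZero ((ω m).obj X) := (ω m).map_isZero hX
      have h5 : Subsingleton ((ω m).obj X) := ModuleCat.subsingleton_of_isZero h4
      rw [Subsingleton.elim x 0]
      exact zero_mem _
    · intro X Y i r hir hY m j g x c h1 h2 h3
      refine hY m j g (((ω m).map i).hom x) c (hmap m i h1) (fun h4 => h2 ?_) ?_
      · have h5 := hmap m r h4
        have h6 : ((ω m).map r).hom (((ω m).map i).hom x) = x := by
          rw [← ModuleCat.comp_apply, ← (ω m).map_comp, hir, (ω m).map_id, ModuleCat.id_apply]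
        rwa [h6] at h5
      · have h5 := hmap m i h3
        rwa [map_sub, map_smul, map_smul] at h5
    · intro X Y hX hY m j g x c h1 h2 h3
      have h4 : ((ω m).map (biprod.inl : X ⟶ X ⊞ Y)).hom
            (((ω m).map (biprod.fst : X ⊞ Y ⟶ X)).hom x) +
          ((ω m).map (biprod.inr : Y ⟶ X ⊞ Y)).hom
            (((ω m).map (biprod.snd : X ⊞ Y ⟶ Y)).hom x) = x := by
        rw [← ModuleCat.comp_apply, ← ModuleCat.comp_apply, ← (ω m).map_comp, ← (ω m).map_comp,
          ← LinearMap.add_apply, ← ModuleCat.hom_add, ← (ω m).map_add, biprod.total, (ω m).map_id,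
          ModuleCat.id_apply]
      by_cases h5 : ((ω m).map (biprod.fst : X ⊞ Y ⟶ X)).hom x ∈ fil E G ((ω m).obj X) (j - 1)
      · by_cases h6 : ((ω m).map (biprod.snd : X ⊞ Y ⟶ Y)).hom x ∈ fil E G ((ω m).obj Y) (j - 1)
        · exfalso
          apply h2
          rw [← h4]
          exact add_mem (hmap m _ h5) (hmap m _ h6)
        · refine hY m j g _ c (hmap m biprod.snd h1) h6 ?_
          have h7 := hmap m (biprod.snd : X ⊞ Y ⟶ Y) h3
          rwa [map_sub, map_smul, map_smul] at h7
      · refine hX m j g _ c (hmap m biprod.fst h1) h5 ?_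
        have h7 := hmap m (biprod.fst : X ⊞ Y ⟶ X) h3
        rwa [map_sub, map_smul, map_smul] at h7
  refine { toIsSerre := hs, twist := ?_ }
  intro a N hN m j g x c h1 h2 h3
  obtain ⟨e, he1, he2, he3⟩ := h.twist a m N
  have hp0 : (p : E) ≠ 0 := by exact_mod_cast hp.out.ne_zero
  have hf : ∀ {i : ℤ} {y : (ω m).obj ((D.tw a).obj N)}, y ∈ fil E G _ i → e y ∈ fil E G _ i :=
    fun hy => fil_map e.toAddMonoidHom he1 hy
  have hb : ∀ {i : ℤ} {y : (ω (m + 2 * a)).obj N}, y ∈ fil E G _ i → e.symm y ∈ fil E G _ i := by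
    intro i y hy
    refine fil_map e.symm.toAddMonoidHom (fun z => ?_) hy
    apply e.injective
    change e (e.symm (opN E G • z)) = e (opN E G • e.symm z)
    rw [he1, e.apply_symm_apply, e.apply_symm_apply]
  have h4 : e x ∉ fil E G _ (j - 1) := fun h5 => h2 (by simpa using hb h5)
  have h5 := fil_scal ((p : E) ^ (a * d g)) (hf h3)
  have h6 : scal G ((p : E) ^ (a * d g)) • e (op E g • x - scal G c • x) =
      op E g • e x - scal G ((p : E) ^ (a * d g) * c) • e x := by
    rw [map_sub, he3, he2, smul_sub, ← mul_smul, ← mul_assoc, ← mul_smul,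
      scal_mul, scal_mul, ← zpow_add₀ hp0, add_neg_cancel, zpow_zero, scal_one, one_mul]
  rw [h6] at h5
  have h7 := (hN (m + 2 * a) j g (e x) _ (hf h1) h4 h5).mul (-(a * d g))
  have h8 : (m + 2 * a + j) * d g + 2 * -(a * d g) = (m + j) * d g := by ring
  have h9 : (p : E) ^ (-(a * d g)) * ((p : E) ^ (a * d g) * c) = c := by
    rw [← mul_assoc, ← zpow_add₀ hp0, neg_add_cancel, zpow_zero, one_mul]
  rwa [h8, h9] at h7

end

end Pool.Agent.Q148.LI
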