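import Pool.Agent.Q148.LI.Top
import Pool.Agent.Q193.LT.Defs

/-!
# Weight graded pieces of the cohomology with compact supports, and the two pieces next to the diagonal
-/

set_option autoImplicit false

open CategoryTheory CategoryTheory.Limits AlgebraicGeometry Pool.Agent.Y116.UV Pool.Agent.Z125.UN
  Pool.Agent.Q193.LT

universe v u

namespace Pool.Agent.Q148.LI

/-- `G w j X` is the part of weight `w` of the cohomology with compact supports `H^j_c(X)`, an object of
the category `A`, and `tw a` the Tate twist of objects. -/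
structure WtData (R : Type) [CommRing R] (A : Type u) where
  /-- `Gr^W_w H^j_c(X)` -/
  G : ℤ → ℤ → Sch R → A
  /-- the Tate twist -/
  tw : ℤ → A → A

variable {R : Type} [CommRing R] {A : Type u} [Category.{v} A] [Abelian A]

/-- `P → Q → S` is exact at `Q`. -/
def Ex {P Q S : A} (f : P ⟶ Q) (g : Q ⟶ S) : Prop :=
  ∃ w : f ≫ g = 0, (ShortComplex.mk f g w).Exact

/-- For every weight `w` a long exact sequence
`⋯ → G w j U → G w j X → G w j Z → G w (j + 1) U → ⋯`. -/
def WtLes (D : WtData R A) (Z X U : Sch R) : Prop :=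
  ∀ w : ℤ, ∃ (a : ∀ j, D.G w j U ⟶ D.G w j X) (b : ∀ j, D.G w j X ⟶ D.G w j Z)
    (d : ∀ j, D.G w j Z ⟶ D.G w (j + 1) U),
    (∀ j, Ex (a j) (b j)) ∧ (∀ j, Ex (b j) (d j)) ∧ ∀ j, Ex (d j) (a (j + 1))

/-- The standard properties.

* `les`: long exact sequences for a closed subscheme `Z` of `X` and its complement `U`;
* `weights`: the weights of `H^j_c(X)` are at most `j`;
* `space`: `H^j_c(𝔸^n) = 0` for `j ≠ 2 n`;
* `bundle`: affine bundles with fibre `𝔸^{m-1}`;
* `torus`: `H^{j-2}_c(X)(-1)` is a direct factor of `H^j_c(X × 𝔾_m)`. -/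
structure IsWt (D : WtData R A) : Prop where
  iso : ∀ {X Y : Sch R}, FT True X → Nonempty (X ≅ Y) → ∀ w j, Nonempty (D.G w j X ≅ D.G w j Y)
  les : ∀ {Z X U : Sch R} (i : Z ⟶ X) (j : U ⟶ X), FT True X → IsTriple i j → WtLes D Z X U
  weights : ∀ X : Sch R, FT True X → ∀ w j, j < w → IsZero (D.G w j X)
  space : ∀ (n : ℕ) (w j : ℤ), j ≠ 2 * n → IsZero (D.G w j (aff R (MvPolynomial (Fin n) R)))
  bundle : ∀ (B : Type) [CommRing B] [Algebra R B] [Algebra.FiniteType R B] (m : ℕ)
    (f : Fin m → B) (U : Sch R) (j : U ⟶ aff R B), IsOpenImmersion j.left →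
    Set.range j.left = {x : PrimeSpectrum B | ∃ l, f l ∉ x.asIdeal} →
    ∀ w n, Nonempty (D.G w n (aff R (Jou f)) ≅ D.tw (1 - m) (D.G (w + 2 * (1 - m)) (n + 2 * (1 - m)) U))
  torus : ∀ (B : Type) [CommRing B] [Algebra R B] [Algebra.FiniteType R B], ∀ w j,
    ∃ (s : D.tw (-1) (D.G (w - 2) (j - 2) (aff R B)) ⟶ D.G w j (aff R (LaurentPolynomial B)))
      (r : D.G w j (aff R (LaurentPolynomial B)) ⟶ D.tw (-1) (D.G (w - 2) (j - 2) (aff R B))),
      s ≫ r = 𝟙 _

/-- A property of objects which passes to subobjects, is invariant under Tate twists, and is true for the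
cohomology in the degrees `j ≥ 2 n` of the closed subschemes of `𝔸^n` (for `j = 2 n` these are twists of
permutation representations, for `j > 2 n` they are zero). -/
structure IsSub (D : WtData R A) (Q : A → Prop) : Prop where
  mono : ∀ {X Y : A} (f : X ⟶ Y), Mono f → Q Y → Q X
  twist : ∀ (a : ℤ) (M : A), Q (D.tw a M) ↔ Q M
  top : ∀ (n : ℕ) (I : Ideal (MvPolynomial (Fin n) R)) (w j : ℤ), 2 * n ≤ j →
    Q (D.G w j (aff R (MvPolynomial (Fin n) R ⧸ I)))

variable {D : WtData R A} {Q : A → Prop}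

lemma IsSub.iso (hQ : IsSub D Q) {X Y : A} (e : X ≅ Y) (h : Q X) : Q Y :=
  hQ.mono e.inv inferInstance h

lemma mono_of_zero {P Q' S : A} {f : P ⟶ Q'} {g : Q' ⟶ S} (h : Ex f g) (hP : IsZero P) : Mono g := by
  obtain ⟨w, h⟩ := h
  have h1 : (ShortComplex.mk f g w).f = 0 := hP.eq_zero_of_src f
  exact (ShortComplex.exact_iff_mono _ h1).mp h

/-- `P₀`: the pieces `G j j`; `P₁`: the pieces `G (j - 1) j`. -/
theorem topPair (hD : IsWt D) (hQ : IsSub D Q) :
    TopPair (fun X : Sch R => ∀ j, Q (D.G j j X)) (fun X : Sch R => ∀ j, Q (D.G (j - 1) j X)) where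
  iso₀ := fun hX e h j => by
    obtain ⟨e'⟩ := hD.iso hX e j j
    exact hQ.iso e' (h j)
  iso₁ := fun hX e h j => by
    obtain ⟨e'⟩ := hD.iso hX e (j - 1) j
    exact hQ.iso e' (h j)
  jou := fun σ _ m f h j => by
    obtain ⟨n, ⟨e⟩⟩ := Finite.exists_equiv_fin σ
    let ea : MvPolynomial σ R ≃ₐ[R] MvPolynomial (Fin n) R := MvPolynomial.renameEquiv R e
    -- the quotient of the polynomial ring in `Fin n`
    let I : Ideal (MvPolynomial σ R) := Ideal.span (Set.range f)
    let I' : Ideal (MvPolynomial (Fin n) R) := Ideal.map (ea : _ →+* _) I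
    have eq : (MvPolynomial σ R ⧸ I) ≃ₐ[R] (MvPolynomial (Fin n) R ⧸ I') :=
      Ideal.quotientEquivAlg I I' ea rfl
    by_cases hj : 2 * (n : ℤ) ≤ j
    · obtain ⟨e'⟩ := hD.iso (ft_aff True) ⟨affIso eq⟩ j j
      exact hQ.iso e' (hQ.top n I' j j hj)
    · -- the complement
      let A' := aff R (MvPolynomial σ R)
      let U := opn A' (neOpen R f)
      have ht : IsTriple (affMap (Ideal.Quotient.mkₐ R I)) (opnMap A' (neOpen R f)) := by
        refine ⟨closed_affMap _ (Ideal.Quotient.mkₐ_surjective R _), inferInstance, ?_⟩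
        rw [range_affMap _ (Ideal.Quotient.mkₐ_surjective R _), range_opnMap]
        ext x
        change (∀ a, Ideal.Quotient.mk I a = 0 → a ∈ x.asIdeal) ↔
          ¬ ∃ l, f l ∉ x.asIdeal
        push Not
        constructor
        · intro h l
          exact h (f l) (Ideal.Quotient.eq_zero_iff_mem.mpr (Ideal.subset_span ⟨l, rfl⟩))
        · intro h a ha
          rw [Ideal.Quotient.eq_zero_iff_mem] at ha
          refine (Ideal.span_le.mpr ?_ : I ≤ x.asIdeal) ha
          rintro _ ⟨l, rfl⟩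
          exact h l
      obtain ⟨a, b, d, h1, h2, h3⟩ := hD.les _ _ (ft_aff True) ht j
      have h4 : IsZero (D.G j j A') := by
        obtain ⟨e'⟩ := hD.iso (X := A') (ft_aff True) ⟨affIso ea.symm⟩ j j
        exact (hD.space n j j (by omega)).of_iso e'
      have h5 : Mono (d j) := mono_of_zero (h2 j) h4
      refine hQ.mono (d j) h5 ?_
      -- `P₁ U`
      obtain ⟨e'⟩ := hD.bundle (MvPolynomial σ R) m f U (opnMap A' (neOpen R f)) inferInstance
        (range_opnMap _ _) (j - 2 * (1 - m)) (j + 1 - 2 * (1 - m))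
      rw [sub_add_cancel, sub_add_cancel] at e'
      refine (hQ.twist (1 - m) _).mp (hQ.iso e' ?_)
      have h6 := h (j + 1 - 2 * (1 - m))
      have h7 : j + 1 - 2 * (1 - (m : ℤ)) - 1 = j - 2 * (1 - m) := by ring
      rwa [h7] at h6
  opened := fun {Z X U} i j hX ht h n => by
    obtain ⟨a, b, d, h1, h2, h3⟩ := hD.les i j hX ht n
    have h4 := h3 (n - 1)
    have hZ : FT True Z := by
      have := ht.closed
      have hi : i.left ≫ X.hom = Z.hom := Over.w i
      have h5 := hX.locallyOfFiniteType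
      have h6 := hX.quasiCompact
      have h7 := hX.separated trivial
      refine ⟨?_, ?_, fun _ => ?_⟩
      · rw [← hi]; infer_instance
      · rw [← hi]; infer_instance
      · rw [← hi]; infer_instance
    have h5 : Mono (a (n - 1 + 1)) := mono_of_zero h4 (hD.weights Z hZ n (n - 1) (by omega))
    rw [sub_add_cancel] at h5
    exact hQ.mono (a n) h5 (h n)
  torus := fun B _ _ _ h j => by
    have h1 := hD.torus B (j + 2) (j + 2)
    rw [add_sub_cancel_right] at h1
    obtain ⟨s, r, hsr⟩ := h1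
    have h2 : Mono s := mono_of_mono_fac hsr
    exact (hQ.twist (-1) _).mp (hQ.mono s h2 (h (j + 2)))

section field

variable {k : Type} [Field k] {D : WtData k A}

/-- Jouanolou's device: over every smooth projective scheme `Y` there is an affine bundle with fibre
`𝔸^r` whose total space is affine. -/
def Device (D : WtData k A) : Prop :=
  ∀ Y : Sch k, SmoothProj Y → ∃ (B : Type) (_ : CommRing B) (_ : Algebra k B) (r : ℤ),
    Algebra.FiniteType k B ∧
      ∀ w j, Nonempty (D.G w j (aff k B) ≅ D.tw (-r) (D.G (w - 2 * r) (j - 2 * r) Y))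

lemma device_sub (hQ : IsSub D Q) (hv : Device D)
    (h : ∀ (B : Type) [CommRing B] [Algebra k B] [Algebra.FiniteType k B], ∀ j,
      Q (D.G j j (aff k B))) (Y : Sch k) (hY : SmoothProj Y) (j : ℤ) : Q (D.G j j Y) := by
  obtain ⟨B, _, _, r, hB, e⟩ := hv Y hY
  obtain ⟨e⟩ := e (j + 2 * r) (j + 2 * r)
  rw [add_sub_cancel_right] at e
  exact (hQ.twist (-r) _).mp (hQ.iso e (h B (j + 2 * r)))

/-- One piece of the cohomology of the hypersurfaces `T = 1`, for all trilinear forms `T`. -/
theorem one_piece (hD : IsWt D) (hQ : IsSub D Q) (hv : Device D)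
    (h : ∀ (a b c : ℕ) (T : Fin a → Fin b → Fin c → k), ∀ j, Q (D.G (j - 1) j (hypS T)))
    (Y : Sch k) (hY : SmoothProj Y) (j : ℤ) : Q (D.G j j Y) :=
  device_sub hQ hv (fun B _ _ _ => top_all (topPair hD hQ) h B) Y hY j

/-- One piece of the cohomology of the hypersurfaces of tripartite hypergraphs. -/
theorem one_piece_graph (hk : Frac k) (hD : IsWt D) (hQ : IsSub D Q) (hv : Device D)
    (h : ∀ (a b c : ℕ) (H : Finset (Fin a × Fin b × Fin c)), ∀ j, Q (D.G (j - 1) j (tripS k H)))
    (Y : Sch k) (hY : SmoothProj Y) (j : ℤ) : Q (D.G j j Y) :=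
  device_sub hQ hv (fun B _ _ _ => top_graph hk (topPair hD hQ) h B) Y hY j

end field

end Pool.Agent.Q148.LI
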