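import Pool.Agent.Q148.LI.WM
import Pool.Agent.Q148.LI.Wt
import Pool.Agent.Q148.LI.Proper

/-!
# Purity of the monodromy filtration and one weight in the cohomology of cubics
-/

set_option autoImplicit false

open CategoryTheory CategoryTheory.Limits AlgebraicGeometry Pool.Agent.Y116.UV Pool.Agent.Z125.UN
  Pool.Agent.Q193.LT

universe w v u

namespace Pool.Agent.Q148.LI

section

variable {E G : Type} [Field E] [CharZero E] {p : ℕ} [hp : Fact p.Prime] {d : G → ℤ}

lemma pure_of_twisted {a m : ℤ} {V W : ModuleCat.{w} (OpAlg E G)} (h : Twisted p d a V W)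
    (hW : Pure E p d (m + 2 * a) W) : Pure E p d m V := by
  intro j g x c h1 h2 h3
  obtain ⟨e, he1, he2, he3⟩ := h
  have hp0 : (p : E) ≠ 0 := by exact_mod_cast hp.out.ne_zero
  have hf : ∀ {i : ℤ} {y : V}, y ∈ fil E G V i → e y ∈ fil E G W i :=
    fun hy => fil_map e.toAddMonoidHom he1 hy
  have hb : ∀ {i : ℤ} {y : W}, y ∈ fil E G W i → e.symm y ∈ fil E G V i := by
    intro i y hy
    refine fil_map e.symm.toAddMonoidHom (fun z => ?_) hy
    apply e.injective
    change e (e.symm (opN E G • z)) = e (opN E G • e.symm z)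
    rw [he1, e.apply_symm_apply, e.apply_symm_apply]
  have h4 : e x ∉ fil E G W (j - 1) := fun h5 => h2 (by simpa using hb h5)
  have h5 := fil_scal ((p : E) ^ (a * d g)) (hf h3)
  have h6 : scal G ((p : E) ^ (a * d g)) • e (op E g • x - scal G c • x) =
      op E g • e x - scal G ((p : E) ^ (a * d g) * c) • e x := by
    rw [map_sub, he3, he2, smul_sub, ← mul_smul, ← mul_assoc, ← mul_smul,
      scal_mul, scal_mul, ← zpow_add₀ hp0, add_neg_cancel, zpow_zero, scal_one, one_mul]
  rw [h6] at h5
  have h7 := (hW j g (e x) _ (hf h1) h4 h5).mul (-(a * d g))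
  have h8 : (m + 2 * a + j) * d g + 2 * -(a * d g) = (m + j) * d g := by ring
  have h9 : (p : E) ^ (-(a * d g)) * ((p : E) ^ (a * d g) * c) = c := by
    rw [← mul_assoc, ← zpow_add₀ hp0, neg_add_cancel, zpow_zero, one_mul]
  rwa [h8, h9] at h7

lemma Twisted.symm {a : ℤ} {V W : ModuleCat.{w} (OpAlg E G)} (h : Twisted p d a V W) :
    Twisted p d (-a) W V := by
  obtain ⟨e, he1, he2, he3⟩ := h
  have hp0 : (p : E) ≠ 0 := by exact_mod_cast hp.out.ne_zero
  refine ⟨e.symm, fun x => ?_, fun c x => ?_, fun g x => ?_⟩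
  · apply e.injective
    rw [he1, e.apply_symm_apply, e.apply_symm_apply]
  · apply e.injective
    rw [he2, e.apply_symm_apply, e.apply_symm_apply]
  · apply e.injective
    rw [e.apply_symm_apply, mul_smul, he2, he3, ← mul_smul, ← mul_assoc, scal_mul,
      ← zpow_add₀ hp0, e.apply_symm_apply]
    have h1 : -(-a * d g) + -(a * d g) = 0 := by ring
    rw [h1, zpow_zero, scal_one, one_mul]

end

section

variable {k : Type} [Field k] {M : Type u} [Category.{v} M] [Abelian M] {E G : Type} [Field E]
  [CharZero E]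

/-- What is used about the category `M` of motives over `k`, the parts `D.G w j X` of weight `w` of the
cohomology with compact supports `H^j_c(X)`, objects of `M`, and the realizations `ω m` (the part of
weight `m` of the realization) with the operators `N` and `g ∈ G`.

* `wt`, `device`: the properties of `IsWt`, `Device`;
* `semisimple`, `additive`, `twist`: as in `IsRealized`;
* `pure`: `D.G w j X` is pure of weight `w`;
* `top`: in the degrees `j ≥ 2 n` the cohomology of a closed subscheme of `𝔸^n` is a twist of an Artin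
  motive, or zero, so it is pure for the monodromy filtration;
* `subquotient`: `D.G w j X` is a subquotient of `H^w(Y)`, `Y` smooth projective, so it is pure for the
  monodromy filtration if the cohomology of smooth projective schemes is. -/
structure IsPadic (D : WtData k M) (p : ℕ) (d : G → ℤ)
    (ω : ℤ → (M ⥤ ModuleCat.{w} (OpAlg E G))) : Prop where
  wt : IsWt D
  device : Device D
  semisimple : ∀ {X Y : M} (f : X ⟶ Y), Mono f → ∃ r : Y ⟶ X, f ≫ r = 𝟙 X
  additive : ∀ m, (ω m).Additive
  twist : ∀ (a m : ℤ) (N : M), Twisted p d a ((ω m).obj (D.tw a N)) ((ω (m + 2 * a)).obj N)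
  pure : ∀ X : Sch k, FT True X → ∀ w j m, m ≠ w → Subsingleton ((ω m).obj (D.G w j X))
  top : ∀ (n : ℕ) (I : Ideal (MvPolynomial (Fin n) k)) (w j : ℤ), 2 * n ≤ j →
    PureAt p d ω (D.G w j (aff k (MvPolynomial (Fin n) k ⧸ I)))
  subquotient : (∀ Y : Sch k, SmoothProj Y → ∀ j, PureAt p d ω (D.G j j Y)) →
    ∀ X : Sch k, FT True X → ∀ w j, PureAt p d ω (D.G w j X)

variable {D : WtData k M} {p : ℕ} {d : G → ℤ} {ω : ℤ → (M ⥤ ModuleCat.{w} (OpAlg E G))}

lemma IsPadic.sub [hp : Fact p.Prime] (h : IsPadic D p d ω) : IsSub D (PureAt p d ω) where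
  mono := fun {X Y} f hf hY m j g x c h1 h2 h3 => by
    obtain ⟨r, hr⟩ := h.semisimple f hf
    have hmap : ∀ {X Y : M} (f : X ⟶ Y) {j : ℤ} {x : (ω m).obj X},
        x ∈ fil E G ((ω m).obj X) j → ((ω m).map f).hom x ∈ fil E G ((ω m).obj Y) j := by
      intro X Y f j x hx
      exact fil_map ((ω m).map f).hom.toAddMonoidHom
        (fun y => ((ω m).map f).hom.map_smul _ _) hx
    refine hY m j g (((ω m).map f).hom x) c (hmap f h1) (fun h4 => h2 ?_) ?_
    · have h5 := hmap r h4
      have h6 : ((ω m).map r).hom (((ω m).map f).hom x) = x := by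
        rw [← ModuleCat.comp_apply, ← (ω m).map_comp, hr, (ω m).map_id, ModuleCat.id_apply]
      rwa [h6] at h5
    · have h5 := hmap f h3
      rwa [map_sub, map_smul, map_smul] at h5
  twist := fun a N => by
    constructor
    · intro hN m
      have h1 := (h.twist a (m - 2 * a) N).symm
      rw [sub_add_cancel] at h1
      refine pure_of_twisted h1 ?_
      have h2 : m + 2 * -a = m - 2 * a := by ring
      rw [h2]
      exact hN (m - 2 * a)
    · intro hN m
      exact pure_of_twisted (h.twist a m N) (hN (m + 2 * a))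
  top := h.top

/-- The part `D.G w j X` is pure of weight `w` for the monodromy filtration. -/
def PurePart (D : WtData k M) (p : ℕ) (d : G → ℤ) (ω : ℤ → (M ⥤ ModuleCat.{w} (OpAlg E G)))
    (w' j : ℤ) (X : Sch k) : Prop :=
  Pure E p d w' ((ω w').obj (D.G w' j X))

lemma IsPadic.part_iff (h : IsPadic D p d ω) {X : Sch k} (hX : FT True X) (w' j : ℤ) :
    PurePart D p d ω w' j X ↔ PureAt p d ω (D.G w' j X) := by
  constructor
  · intro h1 m
    by_cases hm : m = w'
    · rw [hm]
      exact h1
    · have h2 := h.pure X hX w' j m hm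
      intro i g x c _ h3 _
      exact absurd (by rw [Subsingleton.elim x 0]; exact zero_mem _) h3
  · intro h1
    exact h1 w'

end

end Pool.Agent.Q148.LI
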